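import Pool.Agent.H29.TC.Targets
import Pool.Agent.H92.RC.ID

/-! Generators of `M` modulo `f M` exist (module GX). -/

set_option autoImplicit false

open NumberField
open scoped nonZeroDivisors

namespace Pool.Agent.H56.THC

open Pool.Agent.H29.TC Pool.Agent.H25.HK Pool.Agent.H28.RC

variable {K : Type} [Field K] [NumberField K]

theorem cancel_le {M : FI K} (hM : M ≠ 0) {I J : Ideal (𝓞 K)}
    (h : (I : FI K) * M ≤ (J : FI K) * M) : I ≤ J := by
  have h1 : (I : FI K) ≤ (J : FI K) := by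
    calc (I : FI K) = (I : FI K) * M * M⁻¹ := by rw [mul_assoc, mul_inv_cancel₀ hM, mul_one]
      _ ≤ (J : FI K) * M * M⁻¹ := mul_le_mul_left h _
      _ = (J : FI K) := by rw [mul_assoc, mul_inv_cancel₀ hM, mul_one]
  exact (FractionalIdeal.coeIdeal_le_coeIdeal K).1 h1

theorem exists_add (f : Ideal (𝓞 K)) (M : FI K) (hf : f ≠ ⊥) (hM : M ≠ 0) :
    ∃ x : K, x ≠ 0 ∧ (f : FI K) * M + FractionalIdeal.spanSingleton (𝓞 K)⁰ x = M := by
  obtain ⟨a0, J, ha0, hJ⟩ := FractionalIdeal.exists_eq_spanSingleton_mul M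
  have ha0' : (algebraMap (𝓞 K) K a0) ≠ 0 := by
    rwa [Ne, FaithfulSMul.algebraMap_eq_zero_iff]
  have hJ0 : J ≠ ⊥ := by
    rintro rfl
    apply hM
    rw [hJ, FractionalIdeal.coeIdeal_bot, mul_zero]
  have hfJ : f * J ≠ ⊥ := mul_ne_zero hf hJ0
  have key : ∃ a : 𝓞 K, a ≠ 0 ∧ f * J ⊔ Ideal.span {a} = J := by
    obtain ⟨a, ha⟩ := IsDedekindDomain.exists_sup_span_eq (I := f * J) (J := J)
      Ideal.mul_le_right hfJ
    by_cases h0 : a = 0
    · obtain ⟨b, hb, hb0⟩ := Submodule.exists_mem_ne_zero_of_ne_bot hfJ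
      refine ⟨b, hb0, ?_⟩
      rw [h0, Ideal.span_singleton_zero, sup_bot_eq] at ha
      rw [sup_eq_left.2 ((Ideal.span_singleton_le_iff_mem _).2 hb), ha]
    · exact ⟨a, h0, ha⟩
  obtain ⟨a, ha, haJ⟩ := key
  refine ⟨(algebraMap (𝓞 K) K a0)⁻¹ * algebraMap (𝓞 K) K a, mul_ne_zero (inv_ne_zero ha0') ?_, ?_⟩
  · rwa [Ne, FaithfulSMul.algebraMap_eq_zero_iff]
  · have h1 : M = FractionalIdeal.spanSingleton (𝓞 K)⁰ (algebraMap (𝓞 K) K a0)⁻¹ *
        ((f * J ⊔ Ideal.span {a} : Ideal (𝓞 K)) : FI K) := by rw [haJ]; exact hJ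
    conv_rhs => rw [h1]
    conv_lhs => rw [hJ]
    rw [FractionalIdeal.coeIdeal_sup, mul_add, FractionalIdeal.coeIdeal_mul,
      FractionalIdeal.coeIdeal_span_singleton, FractionalIdeal.spanSingleton_mul_spanSingleton,
      mul_left_comm]

theorem pf_GX (hID : Pool.Agent.H28.RC.T_ID) : T_GX := by
  intro K _ _ f M hf hM
  obtain ⟨x, hx0, hx⟩ := exists_add f M hf hM
  have hxM : x ∈ M := by
    rw [← hx, FractionalIdeal.mem_add]
    exact ⟨0, (_ : Submodule (𝓞 K) K).zero_mem, x,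
      FractionalIdeal.mem_spanSingleton_self _ x, zero_add x⟩
  have hI := (hID K M hM).1 x hxM
  have htop : idl K M x ⊔ f = ⊤ := by
    apply FractionalIdeal.coeIdeal_injective (K := K)
    apply mul_right_cancel₀ hM
    change ((idl K M x ⊔ f : Ideal (𝓞 K)) : FI K) * M = ((⊤ : Ideal (𝓞 K)) : FI K) * M
    rw [FractionalIdeal.coeIdeal_sup, add_mul, hI, add_comm, hx, FractionalIdeal.coeIdeal_top,
      one_mul]
  refine ⟨x, hxM, hx0, ?_, ?_⟩
  · intro y hy
    rw [← hx, FractionalIdeal.mem_add] at hy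
    obtain ⟨u, hu, v, hv, huv⟩ := hy
    obtain ⟨a, rfl⟩ := (FractionalIdeal.mem_spanSingleton _).1 hv
    by_cases ha : a = 0
    · obtain ⟨b, hb, hb0⟩ := Submodule.exists_mem_ne_zero_of_ne_bot hf
      refine ⟨b, hb0, ?_⟩
      have h1 : (b : K) * x ∈ (f : FI K) * M :=
        FractionalIdeal.mul_mem_mul (FractionalIdeal.mem_coeIdeal_of_mem _ hb) hxM
      have h2 : y = u := by rw [← huv, ha, zero_smul, add_zero]
      rw [h2]
      exact (((f : FI K) * M : FI K) : Submodule (𝓞 K) K).sub_mem hu h1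
    · refine ⟨a, ha, ?_⟩
      have h2 : y - (a : K) * x = u := by
        rw [← huv, Algebra.smul_def]
        ring
      rw [h2]
      exact hu
  · intro a j hj
    constructor
    · intro h
      have h1 : Ideal.span {a} * idl K M x ≤ j := by
        apply cancel_le hM
        rw [FractionalIdeal.coeIdeal_mul, mul_assoc, hI, FractionalIdeal.coeIdeal_span_singleton,
          FractionalIdeal.spanSingleton_mul_spanSingleton]
        exact FractionalIdeal.spanSingleton_le_iff_mem.2 h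
      have h2 : (1 : 𝓞 K) ∈ idl K M x ⊔ f := by rw [htop]; trivial
      obtain ⟨i, hi, u, hu, hiu⟩ := Submodule.mem_sup.1 h2
      have h3 : a = a * i + a * u := by rw [← mul_add, hiu, mul_one]
      rw [h3]
      refine j.add_mem (h1 (Ideal.mul_mem_mul (Ideal.mem_span_singleton_self a) hi)) ?_
      exact j.mul_mem_left a (hj hu)
    · intro h
      exact FractionalIdeal.mul_mem_mul (FractionalIdeal.mem_coeIdeal_of_mem _ h) hxM

end Pool.Agent.H56.THC
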